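import Mathlib

/-!
# Project FL: MP_74810d_gt (frozen S13392), interface with complete proofs (helper404)

Goal: `S² × S²` is not the orbit space of a continuous flow on `ℝ⁵`.  The pieces are the closed
Props `S_XXX`; a helper proves `theorem t_XXX : S_XXX`, with other pieces as hypotheses when the
comment says (uses), e.g. `theorem t_B2 (h : S_CV) : S_B2`.

Everything is stated with *local* conditions on functions of two or three variables
(Alexander-Spanier cochains): `∃ U ∈ 𝓝 x, ∀ y ∈ U, ∀ z ∈ U, …`.  Functions need not be continuous.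
-/

set_option autoImplicit false
set_option linter.unusedVariables false

namespace Run7.h404.FL

open Set Topology Filter

/-- the euclidean space of dimension five -/
abbrev E5 : Type := EuclideanSpace ℝ (Fin 5)

section cochains

variable {X : Type} [TopologicalSpace X]

/-- coboundary of a 1-cochain -/
def dd (b : X → X → ℝ) (x y z : X) : ℝ := b y z - b x z + b x y

/-- `b = d f` near `x` -/
def Pr (f : X → ℝ) (b : X → X → ℝ) (x : X) : Prop :=
  ∃ U ∈ 𝓝 x, ∀ y ∈ U, ∀ z ∈ U, b y z = f z - f y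

/-- the 1-cochain `b` is closed near `x` -/
def C1 (b : X → X → ℝ) (x : X) : Prop :=
  ∃ U ∈ 𝓝 x, ∀ y ∈ U, ∀ z ∈ U, ∀ w ∈ U, dd b y z w = 0

/-- the 1-cochain `b` vanishes near `x` -/
def Z1 (b : X → X → ℝ) (x : X) : Prop :=
  ∃ U ∈ 𝓝 x, ∀ y ∈ U, ∀ z ∈ U, b y z = 0

/-- `a = d b` near `x` -/
def D2 (b : X → X → ℝ) (a : X → X → X → ℝ) (x : X) : Prop :=
  ∃ U ∈ 𝓝 x, ∀ y ∈ U, ∀ z ∈ U, ∀ w ∈ U, a y z w = dd b y z w

/-- the 2-cochain `a` is closed near `x` -/
def C2 (a : X → X → X → ℝ) (x : X) : Prop :=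
  ∃ U ∈ 𝓝 x, ∀ y ∈ U, ∀ z ∈ U, ∀ w ∈ U, ∀ v ∈ U, a z w v - a y w v + a y z v - a y z w = 0

/-- the 2-cochain `a` is alternating near `x` -/
def A2 (a : X → X → X → ℝ) (x : X) : Prop :=
  ∃ U ∈ 𝓝 x, ∀ y ∈ U, ∀ z ∈ U, ∀ w ∈ U, a z y w = -a y z w ∧ a y w z = -a y z w

/-- the 2-cochain `a` vanishes near `x` -/
def Z2 (a : X → X → X → ℝ) (x : X) : Prop :=
  ∃ U ∈ 𝓝 x, ∀ y ∈ U, ∀ z ∈ U, ∀ w ∈ U, a y z w = 0

end cochains

/-! ## Part 1: cochains on convex sets -/

/-- **CV** (120 lines). Closed 1-cochains on an open convex set are exact.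
Proof. Let `x₀ ∈ S` (if `S = ∅` nothing to prove). For `x` and `n ≥ 1` put `x_i = x₀ + (i/n)(x - x₀)`,
`S_n(x) = Σ_{i<n} b(x_i, x_{i+1})`. Fix `x ∈ S`. The segment `[x₀, x] ⊆ S` is compact, so there are
`δ > 0` such that `dd b = 0` on all triples in a ball of radius `4δ` around any point of the segment
(`lebesgue_number_lemma_of_metric`).
(1) If `dist x₀ x / n < δ` and `m ≥ 1` then `S_{nm}(x) = S_n(x)`: inside each small interval
`b(p₀, p_m) = Σ b(p_j, p_{j+1})` for points `p_j` of the interval (closedness, induction;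
`b(p,p) = 0`). So `S_n(x) = S_{nn'}(x) = S_{n'}(x)` for all large `n, n'`: let `f x` be this value.
(2) For `y, z` near `x` (`dist < δ'`) one `n` works for `y` and `z` (the segments `[x₀,y]` stay within
`δ'` of `[x₀,x]`), and `b(y_i, y_{i+1}) - b(z_i, z_{i+1}) = b(z_{i+1}, y_{i+1}) - b(z_i, y_i)` (two
triangles), the sum telescopes: `f y - f z = b z y - b x₀ x₀ = b z y`. -/
def S_CV : Prop :=
  ∀ (E : Type) [NormedAddCommGroup E] [NormedSpace ℝ E] (S : Set E) (b : E → E → ℝ),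
    IsOpen S → Convex ℝ S → (∀ x ∈ S, C1 b x) → ∃ f : E → ℝ, ∀ x ∈ S, Pr f b x

/-- **B2** (200 lines; uses CV). Closed 2-cochains on `ℝ⁵` are exact on every ball.
Proof. An open box is `O(l,u) = {x | ∀ i, l i < x i ∧ x i < u i}` (convex, open). Say that `O` is good
if there is `b` with `D2 b a x` for all `x ∈ O`. Claim: all bounded boxes are good.
(1) Mayer-Vietoris: let `O = O(l,u)`, `c ∈ (l i, u i)`, `ε > 0` with `[c-ε, c+ε] ⊆ (l i, u i)`,
`A' = O ∩ {x i < c+ε}`, `B' = O ∩ {x i > c-ε}`. If `A'` and `B'` are good (`b_A`, `b_B`) then `O` is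
good: `b_A - b_B` is closed on the convex open set `A' ∩ B'`, by CV it is `= d f` there. Put
`b_A' = b_A - d f` (`f` any function, so `b_A'` is still a primitive of `a` on `A'`), then `b_A' = b_B`
near every point of `A' ∩ B'`. Let `b(y,z) = b_A'(y,z)` if `y i ≤ c` and `z i ≤ c`, else `b_B(y,z)`.
Check at `x`: `x i < c`: near `x` it is `b_A'`; `x i > c`: near `x` it is `b_B`; `x i = c`: `x ∈ A' ∩ B'`,
both agree near `x`.
(2) If `O₀ = O(l,u)` is not good then one of the two overlapping halves (`c` the midpoint,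
`ε = (u i - l i)/6`, so the new length is `2/3` of the old one) in direction `i = 0` is not good, then
take direction `i = 1`, …; after 5 steps all lengths are at most `2/3` of the old ones. So there is a
decreasing sequence of bad boxes with side lengths tending to `0`; their closures have a common point
`x`. By `C2 a x` there is a neighbourhood `U` of `x` with `a = d b` on `U` for `b(y,z) = a(x,y,z)`
(closedness for the quadruple `(x,y,z,w)`), and `U` contains a box of the sequence: contradiction.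
(A neat variant: well-founded / `Real` bisection on the statement every box with all sides `≤ s` and
inside the fixed big box is good: true for small `s` by compactness (Lebesgue number), and
`s → (4/3) s` direction by direction by (1).) A ball is contained in a box. -/
def S_B2 : Prop :=
  ∀ (a : E5 → E5 → E5 → ℝ), (∀ x, C2 a x) → ∀ R : ℝ, ∃ b : E5 → E5 → ℝ, ∀ x, ‖x‖ < R → D2 b a x

/-- **SH** (200 lines; uses CV). Closed 1-cochains on the shell `R < ‖x‖` of `ℝ⁵` (only the part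
`‖x‖ < R + 3` is needed) are exact.
Proof. MV: if `U, V` are open, `U ∩ V` preconnected, `b` closed on `U ∪ V`, `b = d f` on `U`, `b = d g`
on `V`, then `b = d h` on `U ∪ V`: `f - g` is locally constant on `U ∩ V`, so equal to a constant `k`;
`h = f` on `U`, `h = g + k` on `V \ U`.
The open shell is simply connected (`Pool.Agent.H472R3.simplyConnected_sph` gives the sphere `S⁴`), or
directly with MV: it is enough to treat the open sets `H_v = {x | R < ⟨x, v⟩, ‖x‖ < R + 3}`, `‖v‖ = 1`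
(convex). Perhaps easiest: replace `‖x‖` by coordinates: the statement for
`{x | (∃ i, R' < |x i|) ∧ ∀ i, |x i| < R''}` (union of the 10 convex open sets
`C(i,±) = {R' < ± x i} ∩ box`) does not cover the round shell exactly; so state and prove the lemma in
the form below with the sup norm of the coordinates (this is the form which is used).
Order the sets: `C(0,+), …, C(4,+), C(0,-), …, C(4,-)` and add them one after the other; the
intersection of the new set with the union of the previous ones is connected: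
`C(j,+) ∩ ⋃_{i<j} C(i,+)`: all the (convex) pieces contain the point with all coordinates `r`,
`R' < r < R''`. `C(j,-) ∩ (⋃_{i≠j} C(i,+) ∪ ⋃_{i<j} C(i,-))`: the pieces `C(i,+) ∩ C(j,-)`, `i ≠ j`, contain
the point with coordinates `r` except `-r` in place `j`; each piece `C(i,-) ∩ C(j,-)`, `i < j`, meets the
piece `C(l,+) ∩ C(j,-)` for `l ≠ i, j`. -/
def S_SH : Prop :=
  ∀ (R R' : ℝ) (b : E5 → E5 → ℝ), 0 < R → R < R' →
    (∀ x : E5, (∃ i, R < |x i|) → (∀ i, |x i| < R') → C1 b x) →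
    ∃ f : E5 → ℝ, ∀ x : E5, (∃ i, R < |x i|) → (∀ i, |x i| < R') → Pr f b x

/-! ## Part 2: flows -/

/-- a continuous flow on `ℝ⁵` whose orbits are the fibres of the open continuous map `p` onto `Q` -/
structure Fl {Q : Type} [MetricSpace Q] (Φ : ℝ → E5 → E5) (p : E5 → Q) : Prop where
  cont : Continuous fun z : ℝ × E5 => Φ z.1 z.2
  zero : ∀ x, Φ 0 x = x
  add : ∀ (s t : ℝ) (x : E5), Φ (s + t) x = Φ s (Φ t x)
  pcont : Continuous p
  popen : IsOpenMap p
  psurj : Function.Surjective p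
  fib : ∀ x y, p x = p y ↔ ∃ t : ℝ, Φ t x = y

/-- the fibre over `q` is compact -/
def Cp {Q : Type} [MetricSpace Q] (p : E5 → Q) (q : Q) : Prop := IsCompact (p ⁻¹' {q})

/-- **EMB** (100 lines). The orbits are embedded.
Proof. `C = p ⁻¹' {p x}` is closed in `ℝ⁵`, so a complete metric space, so a Baire space, and it is the
union of the countably many compact sets `Φ [kε/4, (k+1)ε/4] x`, `k ∈ ℤ`. So one of them has interior
in `C` (`nonempty_interior_of_iUnion_of_closed`): there are `t₀` in the interval and an open `U₀ ⊆ ℝ⁵`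
with `Φ t₀ x ∈ U₀`, `U₀ ∩ C ⊆ Φ [kε/4, (k+1)ε/4] x`. Apply the homeomorphism `Φ (-t₀)`:
`U = (Φ t₀) ⁻¹' U₀` contains `x` and `U ∩ C ⊆ Φ [kε/4 - t₀, (k+1)ε/4 - t₀] x`. -/
def S_EMB : Prop :=
  ∀ (Q : Type) [MetricSpace Q] (Φ : ℝ → E5 → E5) (p : E5 → Q), Fl Φ p →
    ∀ (x : E5) (ε : ℝ), 0 < ε → ∃ U ∈ 𝓝 x, ∀ y ∈ U, p y = p x → ∃ t : ℝ, |t| < ε ∧ y = Φ t x

/-- **PRO** (120 lines; uses EMB). Compact fibres are periodic orbits, the others are proper lines.
Proof. (1) Suppose there is `K` compact and times `t n` with `|t n| → ∞`, `Φ (t n) x ∈ K`. A subsequence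
converges to `y ∈ K`, `p y = p x`. By EMB at `y` (`ε = 1`): `Φ (t n) x = Φ (s n) y` with `|s n| < 1`,
`y = Φ s x`, so `Φ (t n - s n - s) x = x` and the period `t n - s n - s` is not zero for large `n`. So
`Φ τ x = x` for some `τ ≠ 0` (WLOG `τ > 0`) and then the fibre `= Φ [0, τ] x` is compact.
(2) If the fibre is compact take `K` = the fibre in (1): there is a period `τ > 0`. If it is not compact
then (1) gives properness; a period would make the fibre compact, so `t ↦ Φ t x` is injective. -/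
def S_PRO : Prop :=
  ∀ (Q : Type) [MetricSpace Q] (Φ : ℝ → E5 → E5) (p : E5 → Q), Fl Φ p → ∀ x : E5,
    (Cp p (p x) → ∃ τ : ℝ, 0 < τ ∧ Φ τ x = x) ∧
    (¬ Cp p (p x) → (Function.Injective fun t => Φ t x) ∧
      ∀ K : Set E5, IsCompact K → ∃ T : ℝ, 0 < T ∧ ∀ t, T ≤ |t| → Φ t x ∉ K)

/-- **NEAR** (100 lines). Topology near a fibre.
(1) `K \ W` is compact, so `p '' (K \ W)` is compact, so closed, and does not contain `q`; take its
complement. (2) Compact fibre `C ⊆ ball 0 R`; the sphere `‖x‖ = R` is compact, its image is closed and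
does not contain `q`; for `q'` in the open set `p '' ball 0 R` minus this image, the fibre over `q'` is
connected (image of `ℝ`), meets the ball and not the sphere, so it is contained in the ball.
(3) from (2): the set of `q` with compact fibre is open (closed and bounded fibres).
(4) cover `P` by finitely many sets as in (2): `p ⁻¹' P` is closed and bounded. -/
def S_NEAR : Prop :=
  ∀ (Q : Type) [MetricSpace Q] [CompactSpace Q] (Φ : ℝ → E5 → E5) (p : E5 → Q), Fl Φ p →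
    (∀ (K W : Set E5) (q : Q), IsCompact K → IsOpen W → (∀ y ∈ K, p y = q → y ∈ W) →
      ∃ B ∈ 𝓝 q, ∀ y ∈ K, p y ∈ B → y ∈ W) ∧
    (∀ q : Q, Cp p q → ∃ B ∈ 𝓝 q, ∃ R : ℝ, ∀ y, p y ∈ B → ‖y‖ < R) ∧
    IsClosed {q : Q | ¬ Cp p q} ∧
    (∀ P : Set Q, IsClosed P → (∀ q ∈ P, Cp p q) → IsCompact (p ⁻¹' P))

/-- **SECL** (250 lines; uses PRO, NEAR). The lines have a continuous section: mean entrance time.
Let `L = {q | ¬ Cp p q}`, compact. If `L = ∅` nothing to prove. There is `R₀` with `L ⊆ p '' ball 0 R₀`.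
`ρ x = max 0 (R₀ + 1 - ‖x‖)`, `K = closedBall 0 (R₀+1)`. For `x` with `p x ∈ L` the function
`w t = ρ (Φ t x)` is continuous, `≥ 0`, with compact support (PRO) and positive somewhere.
`A_x t = ∫_{(-∞,t]} w`, total mass `c(x) = c(q)`, `q = p x`.
(i) FIRST PASS: let `q ∈ L`, `p x = q`, `Φ t x ∉ K` for `|t| ≥ T`. For every neighbourhood `U` of `x` there
is `B ∈ 𝓝 q` such that every `q' ∈ B ∩ L` has `x' ∈ U`, `p x' = q'`, `Φ t x' ∉ K` for all `t ≤ -T`.
Proof: the set `W` of the points `Φ r z`, `|r| < T`, `z ∈ U' ⊆ U` (`U'` open around `x`; shrink such that...)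
is an open set containing `K ∩ p⁻¹ q`; by NEAR (1) `K ∩ p⁻¹ B ⊆ W`. Let `t₀` be the smallest `t` with
`Φ t z ∈ K` (`z` any point over `q'`; exists: the line of `q'` meets `ball 0 R₀` for `q' ∈ L`, it is proper).
`y₀ = Φ t₀ z ∈ K ∩ p⁻¹ B`, so `y₀ = Φ r x'`, `|r| < T`, `x' ∈ U'`; for `t ≤ -T`: `Φ t x' = Φ (t - r) y₀`,
`t - r < 0`, so it is not in `K`.
(ii) For such `x'`: `A_{x'} t = ∫_{-T}^t ρ (Φ s x') ds` for `t ≥ -T`, close to `A_x t` uniformly on `[-T,T]`; so
`c(q') ≥ A_{x'} T ≥ c(q)/2` for `q' ∈ B ∩ L`, `U` small. By compactness of `L` there is `c₀ > 0` with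
`c(q) ≥ 2 c₀` for all `q ∈ L`.
(iii) `h u = max 0 (1 - u/c₀)`, `H(u) = ∫_0^u h`, so `H` is constant `= c₀/2` for `u ≥ c₀`, `H(0) = 0`.
`m(x) = (2/c₀) ∫ t · w t · h (A_x t) dt`, `σ(q) = Φ (m x) x`. As `(H ∘ A_x)' = h(A_x) w`, we have
`∫ w h(A_x) = c₀/2`, so `m (Φ s x) = m x - s` and `σ` does not depend on `x`.
(iv) continuity of `σ` on `L` at `q`: choose `T` as in (i) and `x'` close to `x`; `A_{x'} t ≥ c₀` for `t ≥ T`
(`A_{x'} T → c(q) ≥ 2c₀`), so `m(x') = (2/c₀) ∫_{-T}^T t ρ(Φ t x') h(∫_{-T}^t ρ(Φ s x') ds) dt`, the right side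
is a continuous function of `x' ∈ ℝ⁵` (`intervalIntegral.continuous_parametric_intervalIntegral_of_continuous`),
with value `m(x)` at `x`. So `σ(q') = Φ (m x') x'` is close to `σ(q)`. -/
def S_SECL : Prop :=
  ∀ (Q : Type) [MetricSpace Q] [CompactSpace Q] (Φ : ℝ → E5 → E5) (p : E5 → Q), Fl Φ p →
    ∃ σ : Q → E5, (∀ q, ¬ Cp p q → p (σ q) = q) ∧ ContinuousOn σ {q | ¬ Cp p q}

/-- **SECX** (100 lines; uses NEAR (only that `L` is closed) and SECL). Extension to a section which is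
continuous at the points of `L = {q | ¬ Cp p q}`.
`s = σ` on `L`. If `L = ∅` take any section. For `q ∉ L`: let `m(q)` be the infimum of
`dist x (σ l) + dist q l` over `p x = q`, `l ∈ L`, choose `s q = x` and `l` with value
`< m(q) + infDist q L` (positive as `L` is closed). For `q₀ ∈ L`, `ε > 0`: `p '' ball (σ q₀) ε` is a
neighbourhood of `q₀`, so `m(q) < ε + dist q q₀` for `q` near `q₀`; so `dist (s q) (σ l)` and `dist q l` are
small, `l → q₀`, `σ l → σ q₀` (continuity on `L`), `s q → σ q₀`. -/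
def S_SECX : Prop :=
  ∀ (Q : Type) [MetricSpace Q] [CompactSpace Q] (Φ : ℝ → E5 → E5) (p : E5 → Q), Fl Φ p →
    ∃ s : Q → E5, (∀ q, p (s q) = q) ∧ ∀ q, ¬ Cp p q → ContinuousAt s q

/-- **BETA** (100 lines; uses NEAR, SECX, B2). Every 2-cocycle is cohomologous to one vanishing near
`L = {q | ¬ Cp p q}`.
`s` from SECX; `s '' L` is compact (`L` closed in the compact `Q`, `s` continuous on `L`), so bounded by `R`.
B2 for `a(p x, p y, p z)` gives `θ` with `dθ = p^*a` on `‖x‖ < R + 1`. `η₀ x y = θ (s x) (s y)`,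
`η x y = (η₀ x y - η₀ y x)/2`. Near `q ∈ L`: `s` maps a neighbourhood into the neighbourhood of `s q` where
`dθ = p^*a`, so `dd η₀ x y z = a (p (s x)) … = a x y z`, and
`dd η x y z = (dd η₀ x y z - dd η₀ z y x)/2 = (a x y z - a z y x)/2 = a x y z` (alternating). -/
def S_BETA : Prop :=
  ∀ (Q : Type) [MetricSpace Q] [CompactSpace Q] (Φ : ℝ → E5 → E5) (p : E5 → Q), Fl Φ p →
    ∀ a : Q → Q → Q → ℝ, (∀ q, C2 a q) → (∀ q, A2 a q) →
    ∃ η : Q → Q → ℝ, (∀ x y, η y x = -η x y) ∧ ∀ q, ¬ Cp p q → D2 η a q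

/-- the situation after the first step: `a` is a 2-cocycle vanishing near the lines, `ω` a compactly
supported primitive of `p^*a` -/
structure Da {Q : Type} [MetricSpace Q] (p : E5 → Q) (a : Q → Q → Q → ℝ) (ω : E5 → E5 → ℝ) : Prop where
  c2 : ∀ q, C2 a q
  alt : ∀ q, A2 a q
  van : ∀ q, ¬ Cp p q → Z2 a q
  d : ∀ x, D2 ω (fun y z w => a (p y) (p z) (p w)) x
  sup : ∃ K : Set E5, IsCompact K ∧ ∀ x, x ∉ K → Z1 ω x

/-- **CS** (150 lines; uses NEAR, B2, SH). Compactly supported primitives.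
`V = {q | Z2 a q}` is open, contains the lines; `P = Vᶜ`, `M = p ⁻¹' P` is compact (NEAR (4)), contained in
`{∀ i, |x i| < R}`, `R > 0`. B2 (for the ball of radius `3(R+3)`, which contains the box
`|x i| < R + 3`) gives `θ` with `dθ = p^*a` there; for `x ∉ M` we have `Z2 (p^*a) x`, so `θ` is closed at
the points with `∃ i, R < |x i|` of the box `|x i| < R+3`; SH gives `f` with `θ = df` there. Let `f̃ = f` if
`∃ i, R < |x i|`, `f̃ = 0` otherwise. `ω x y = θ x y - (f̃ y - f̃ x)` if `|x i| < R+2`, `|y i| < R+2` for all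
`i`, and `0` otherwise. Check `D2` at `x`: all `|x i| < R + 2`: near `x`, `ω = θ - df̃`, `dω = dθ`. Otherwise
`x ∉ M`, near `x` (if all `|x i| < R+3`: `θ - df̃ = 0`) `ω = 0` and `p^*a = 0`. Support: closed box. -/
def S_CS : Prop :=
  ∀ (Q : Type) [MetricSpace Q] [CompactSpace Q] (Φ : ℝ → E5 → E5) (p : E5 → Q), Fl Φ p →
    ∀ a : Q → Q → Q → ℝ, (∀ q, C2 a q) → (∀ q, A2 a q) → (∀ q, ¬ Cp p q → Z2 a q) →
    ∃ ω : E5 → E5 → ℝ, Da p a ω

/-! ## Part 3: exactness along the fibres -/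

/-- `c` is exact on the fibre over `q`, with a compactly supported primitive -/
def FE {Q : Type} [MetricSpace Q] (p : E5 → Q) (c : E5 → E5 → ℝ) (q : Q) : Prop :=
  ∃ g : E5 → ℝ, (∃ K : Set E5, IsCompact K ∧ ∀ y, p y = q → y ∉ K → g y = 0) ∧
    ∀ y, p y = q → ∃ U ∈ 𝓝 y, ∀ z ∈ U, ∀ w ∈ U, p z = q → p w = q → c z w = g w - g z

/-- `c` is closed on the fibre over `q` -/
def FC {Q : Type} [MetricSpace Q] (p : E5 → Q) (c : E5 → E5 → ℝ) (q : Q) : Prop :=
  ∀ y, p y = q → ∃ U ∈ 𝓝 y, ∀ z ∈ U, ∀ w ∈ U, ∀ v ∈ U, p z = q → p w = q → p v = q →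
    dd c z w v = 0

/-- `c` has compact support on the fibre over `q` -/
def FS {Q : Type} [MetricSpace Q] (p : E5 → Q) (c : E5 → E5 → ℝ) (q : Q) : Prop :=
  ∃ K : Set E5, IsCompact K ∧ ∀ y, p y = q → y ∉ K →
    ∃ U ∈ 𝓝 y, ∀ z ∈ U, ∀ w ∈ U, p z = q → p w = q → c z w = 0

/-- **LG** (200 lines; uses NEAR). Extension of a primitive from a fibre to the neighbouring fibres.
Proof. `C = p ⁻¹' {q}`. Take `R₁` with: `g₀ = 0` on `C` outside `closedBall 0 R₁`; if `C` is compact: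
`p ⁻¹' B ⊆ ball 0 R₁` for some `B ∈ 𝓝 q` (NEAR (2)); if not: `Z1 c y` for `‖y‖ ≥ R₁`, `p y ∈ B` (hypothesis).
`K₂ = closedBall 0 (R₁+2)`, `C₂ = C ∩ K₂` compact. Lebesgue number: `0 < δ < 1/4` such that for every
`e ∈ C₂`, on `ball e (4δ)`: `dd c = 0` for all triples; `c z w = g₀ w - g₀ z` for `z, w ∈ C`; and, if `C` is
not compact and `‖e‖ ≥ R₁`, `c = 0` for all pairs. For `w` within `δ` of `C₂` choose `r w ∈ C₂`,
`dist w (r w) < δ`. Define `g w = g₀ (r w) + c (r w) w` if `w ∈ K₂` and `w` is within `δ` of `C₂`, else `g w = 0`.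
By NEAR (1) (shrink `B`): points of `K₂ ∩ p ⁻¹' B` are within `δ` of `C₂`. Let `p y ∈ B`, `B` open.
Case `‖y‖ < R₁+2`: for `z, w` near `y` (within `δ`, in `K₂ ∩ p⁻¹' B`) all of `r z, r w, z, w` lie in
`ball (r y) (4δ)`, so `g w - g z = c (r z) (r w) + c (r w) w - c (r z) z = c (r z) w - c (r z) z = c z w`.
Case `‖y‖ ≥ R₁+2` (then `C` is not compact): near `y` we have `c = 0`, and `g = 0`: if `w ∈ K₂` is within `δ`
of `C₂` and near `y` then `‖r w‖ ≥ R₁ + 1`, so `g₀ (r w) = 0` and `c (r w) w = 0`.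
Support: `g = 0` outside `K₂`. -/
def S_LG : Prop :=
  ∀ (Q : Type) [MetricSpace Q] [CompactSpace Q] (Φ : ℝ → E5 → E5) (p : E5 → Q), Fl Φ p →
    ∀ (q : Q) (c : E5 → E5 → ℝ), (∀ y, p y = q → C1 c y) →
    (Cp p q ∨ ∃ K : Set E5, IsCompact K ∧ ∃ B ∈ 𝓝 q, ∀ y, y ∉ K → p y ∈ B → Z1 c y) →
    FE p c q →
    ∃ B ∈ 𝓝 q, ∃ g : E5 → ℝ, (∃ K : Set E5, IsCompact K ∧ ∀ y, p y ∈ B → y ∉ K → g y = 0) ∧
      ∀ y, p y ∈ B → Pr g c y

/-- **REF** (250 lines; uses EMB, PRO, NEAR). The positive reference cochain near an orbit which is not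
a fixed point.
Proof. There is `T₀ > 0` with `Φ T₀ x ≠ x`. `u y = ∫_0^{T₀} ‖Φ s y - x‖ ds`, continuous;
`u (Φ t y) = ∫_t^{T₀+t} ‖Φ s y - x‖ ds` has derivative `‖Φ (T₀+t) y - x‖ - ‖Φ t y - x‖` in `t`, which is
positive for `|t| ≤ ε` and `y` in an open neighbourhood `V₀` of `x` (it is `‖Φ T₀ x - x‖ > 0` at `y = x`,
`t = 0`). So `t ↦ u (Φ t y)` is strictly increasing on `[-ε, ε]` for `y ∈ V₀`. By EMB choose `V ⊆ V₀` open
bounded, `x ∈ V`, such that the points of `C = p ⁻¹' {p x}` in `closure V` are `Φ t x` with `|t| < ε`; for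
these `u = u x` only at `x`. So the compact set `frontier V ∩ {u = u x}` does not meet `C`, by NEAR (1) it
does not meet `p ⁻¹' B`. Shrink `B` such that `B ⊆ p '' V₁`, where `V₁ ∋ x` is open and `0 < ε' ≤ ε`,
`Φ t y ∈ V` for `y ∈ V₁`, `|t| ≤ ε'`, `u (Φ (-ε') y) < u x < u (Φ ε' y)`.
`χ y = 1` if `u x ≤ u y`, else `0`. `c y z = χ z - χ y` if `y, z ∈ V`, else `0`.
Let `p y ∈ B`. If `y ∈ V`, `c = dχ` near `y`. If `y ∉ closure V`, `c = 0` near `y`. If `y ∈ frontier V` then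
`u y ≠ u x`, so `χ` is constant near `y` and `c = 0` near `y`. So `C1 c y`, and `Z1 c y` for `y ∉ closure V`.
Not FE over `q' ∈ B`: let `g` be a primitive, `y ∈ V₁`, `p y = q'`, `h t = g (Φ t y)`. `h` is locally
nondecreasing: near `t₀` either `c = 0` near `Φ t₀ y`, or `Φ t₀ y ∈ V` and `h t - h t' = χ(Φ t y) - χ(Φ t' y)`, with
`u (Φ · y)` increasing near `t₀`. So `h` is monotone on `ℝ`, and `h ε' - h (-ε') = χ(Φ ε' y) - χ(Φ (-ε') y) = 1`
(`h - χ ∘ Φ · y` is locally constant on `[-ε', ε']`). If the fibre is compact there is a period `τ > 0`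
(PRO), `h` is monotone and periodic, so constant: contradiction. If not, `h t = 0` for `|t|` large, so
`h = 0`: contradiction. -/
def S_REF : Prop :=
  ∀ (Q : Type) [MetricSpace Q] [CompactSpace Q] (Φ : ℝ → E5 → E5) (p : E5 → Q), Fl Φ p →
    ∀ x : E5, (∃ t, Φ t x ≠ x) → ∃ B ∈ 𝓝 (p x), ∃ c : E5 → E5 → ℝ,
      (∀ y, p y ∈ B → C1 c y) ∧ (∃ K : Set E5, IsCompact K ∧ ∀ y, y ∉ K → p y ∈ B → Z1 c y) ∧
      ∀ q ∈ B, ¬ FE p c q

/-- **KAP** (250 lines; uses CV, EMB, PRO). `H¹` (with compact supports) of a fibre has dimension `≤ 1`.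
Proof. Let `p x = q`. For a cochain `ω` with FC: `b s t = ω (Φ s x) (Φ t x)` is closed at every `t`, so by
CV (`E = ℝ`, `S = univ`) there is `E_ω : ℝ → ℝ` with `b s t = E_ω t - E_ω s` for `s, t` near any time; unique up
to a constant; linear in `ω` up to constants.
Compact fibre: the stabiliser `{t | Φ t x = x}` is a closed subgroup of `ℝ`, not `0` (PRO). If it is `ℝ`
the fibre is `{x}` and FE holds with `g = 0` (`c x x = 0` by FC), so we may assume it is `ℤ τ`, `τ > 0`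
(`AddSubgroup.dense_or_cyclic`). `E_ω (t+τ) - E_ω t` is locally constant, so a constant `P_ω`. If `P_ω = 0`,
`g (Φ t x) = E_ω t` is well defined and FE holds: at `y = Φ t₀ x` EMB gives a neighbourhood `U` in which the
points of the fibre are `Φ t x` with `t` as near to `t₀` as we like. So `P_c ≠ 0`; `κ = P_ω / P_c`.
Non-compact fibre: `E_ω` is constant for `t ≥ T` and for `t ≤ -T` (FS and PRO), `I_ω` = the difference. If
`I_ω = 0`: `g (Φ t x) = E_ω t - E_ω (-T)` is well defined (injectivity), zero outside the compact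
`Φ [-T,T] x`. So `I_c ≠ 0`; `κ = I_ω / I_c`. -/
def S_KAP : Prop :=
  ∀ (Q : Type) [MetricSpace Q] [CompactSpace Q] (Φ : ℝ → E5 → E5) (p : E5 → Q), Fl Φ p →
    ∀ (q : Q) (c ω : E5 → E5 → ℝ), FC p c q → FS p c q → FC p ω q → FS p ω q → ¬ FE p c q →
    ∃ κ : ℝ, FE p (fun y z => ω y z - κ * c y z) q

/-- **ALL** (200 lines; uses NEAR, LG, REF, KAP). `ω` is exact on all fibres or on none.
For `q` let `η_q x y = a q x y`: near `q`, `dη_q = a` (C2 for `(q, x, y, z)`), `η_q x x = 0` (A2), and `η_q = 0`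
near `q` if `q` is a line (`van`). `c_q y z = ω y z - η_q (p y) (p z)` is closed at the points over `q`, and
`Z1` outside a compact set over a neighbourhood of `q` if `q` is a line; `FE p ω q ↔ FE p c_q q`.
(1) `{q | FE p ω q}` is open: LG for `c_q`; over `q' ∈ B` near `q` the function `g` is a primitive of `ω` as
`η_q q' q' = 0`. (2) its complement is open: if `¬ FE p ω q`, `p x = q`, then `x` is not a fixed point
(over a fixed point the fibre is `{x}` and `g = 0` works, `ω x x = 0` by `d`: `dd ω x x x = a q q q = 0`).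
REF: `B, c`; KAP (FC, FS hold): `κ` with `FE (ω - κ c) q`; `κ ≠ 0`. LG for `c_q - κ c`: `FE (ω - κ c) q'` for all
`q'` near `q`. If `FE ω q'` then `FE c q'` (linear combination), contradiction to REF. `Q` is connected. -/
def S_ALL : Prop :=
  ∀ (Q : Type) [MetricSpace Q] [CompactSpace Q] [PreconnectedSpace Q] (Φ : ℝ → E5 → E5)
    (p : E5 → Q), Fl Φ p → ∀ (a : Q → Q → Q → ℝ) (ω : E5 → E5 → ℝ), Da p a ω →
    ∀ q₀, FE p ω q₀ → ∀ q, FE p ω q

/-- **GL** (80 lines). Gluing of 1-cochains on a compact metric space.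
Take `B_q` open with the property; finitely many `B_{q_1}, …, B_{q_n}` cover `Q`; Lebesgue number / shrinking:
closed `C_i ⊆ B_{q_i}` covering `Q`. For `x` let `i(x)` be an index with `x ∈ C_{i(x)}`, `ζ x y = z_{q_{i(x)}} x y`.
At `q`: choose a neighbourhood `U` of `q` which does not meet the `C_i` with `q ∉ C_i` and such that
`z_{q_i} = z_q` on `U × U` for all `i` with `q ∈ C_i` (then `q ∈ B_{q_i}`). -/
def S_GL : Prop :=
  ∀ (Q : Type) [MetricSpace Q] [CompactSpace Q] (z : Q → Q → Q → ℝ),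
    (∀ q, ∃ B ∈ 𝓝 q, ∀ q' ∈ B, ∃ U ∈ 𝓝 q', ∀ x ∈ U, ∀ y ∈ U, z q x y = z q' x y) →
    ∃ ζ : Q → Q → ℝ, ∀ q, ∃ U ∈ 𝓝 q, ∀ x ∈ U, ∀ y ∈ U, ζ x y = z q x y

/-- **DES** (200 lines; uses LG, GL). If `ω` is exact on all fibres then `a` is exact.
For every `q` LG (for `c_q = ω - p^*η_q` as in ALL) gives `B_q` (open) and `g_q` with
`ω y z = η_q (p y) (p z) + g_q z - g_q y` for `y, z` near any point over `B_q`. Put `f x = g_{p x} x`. For
`q' ∈ B_q` near `q` (`η_q q' q' = 0`) the functions `g_q` and `g_{q'}` are both primitives of `ω` on the fibre over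
`q'`, which is connected (an orbit), so `g_q - f` is constant on it: `(g_q - f) y = h_q (p y)`. So near any
point `y₀` over `B_q`: `ω y z - (f z - f y) = z_q (p y) (p z)` with `z_q u v = η_q u v + h_q v - h_q u`, and
`d z_q = a` near `q`. For `q' ∈ B_q`: take `y₀` over `q'`; near `y₀`, `z_q (p y) (p z) = z_{q'} (p y) (p z)`, and
`p` is open, so `z_q = z_{q'}` near `q'`. GL gives `ζ`, `dζ = a` near every `q`. -/
def S_DES : Prop :=
  ∀ (Q : Type) [MetricSpace Q] [CompactSpace Q] (Φ : ℝ → E5 → E5) (p : E5 → Q), Fl Φ p →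
    ∀ (a : Q → Q → Q → ℝ) (ω : E5 → E5 → ℝ), Da p a ω → (∀ q, FE p ω q) →
    ∃ ζ : Q → Q → ℝ, ∀ q, D2 ζ a q

/-- **MAIN** (200 lines; uses BETA, CS, REF, KAP, ALL, DES). `b₂(Q) ≤ 1`.
`a_i' = a_i - dd η_i` (BETA; `dd` of an antisymmetric function is closed and alternating), `ω_i` (CS). Let
`p x₀ = q₀`. If `x₀` is a fixed point, `FE ω₁ q₀` (`g = 0`), take `(s,t) = (1,0)`. Otherwise REF (`c`) and KAP:
`FE (ω_i - κ_i c) q₀`; choose `(s,t) ≠ 0` with `s κ₁ + t κ₂ = 0`. Then `FE (s ω₁ + t ω₂) q₀`, `Da` is linear,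
ALL and DES: `s a₁' + t a₂' = dζ`, so `s a₁ + t a₂ = d(ζ + s η₁ + t η₂)`. -/
def S_MAIN : Prop :=
  ∀ (Q : Type) [MetricSpace Q] [CompactSpace Q] [PreconnectedSpace Q] (Φ : ℝ → E5 → E5)
    (p : E5 → Q), Fl Φ p → ∀ a₁ a₂ : Q → Q → Q → ℝ, (∀ q, C2 a₁ q) → (∀ q, A2 a₁ q) →
    (∀ q, C2 a₂ q) → (∀ q, A2 a₂ q) →
    ∃ (s t : ℝ) (ζ : Q → Q → ℝ), (s ≠ 0 ∨ t ≠ 0) ∧
      ∀ q, D2 ζ (fun x y z => s * a₁ x y z + t * a₂ x y z) q

end Run7.h404.FL
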