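import Pool.Agent.Run7.h404.FL.Fin
import Pool.Agent.Run7.h116.FL.ALL
import Pool.Agent.Run7.h116.FL.MAIN
import Pool.Agent.Run7.h227.FLKAP
import Pool.Agent.Run7.h227.FLPRO
import Pool.Agent.Run7.h255.FL.B2CS
import Pool.Agent.Run7.h437.FL.EMB
import Pool.Agent.Run7.h468.FL.NEAR
import Pool.Agent.Run7.h483.FL.BETA
import Pool.Agent.Run7.h510.FL.CV
import Pool.Agent.Run7.h510.FL.GL
import Pool.Agent.Run7.h617.FL.REF
import Pool.Agent.Run7.h834.FL.SECX
import Pool.Agent.Run7.h841.FL.SECL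
import Pool.Agent.Run7.h888.FL.DES
import Pool.Agent.Run7.h888.FL.LG

/-!
# Project FL (MP_74810d_gt): assembly

Pieces: helper116 (ALL, MAIN), helper227 (PRO, KAP), helper255 (B2, CS, `S² × S²`), helper437 (EMB),
helper468 (NEAR), helper483 (BETA), helper510 (CV, GL), helper617 (REF), helper834 (SECX),
helper841 (SECL), helper888 (LG, DES); proof and statements: helper404.
-/

set_option autoImplicit false

namespace Run7.h404.FL

theorem t_PRO : S_PRO := Run7.h227.FL.t_PRO Run7.h437.FL.t_EMB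
theorem t_KAP : S_KAP := Run7.h227.FL.t_KAP Run7.h510.FL.t_CV Run7.h437.FL.t_EMB t_PRO
theorem t_REF : S_REF := Run7.h617.FL.t_REF Run7.h437.FL.t_EMB t_PRO Run7.h468.FL.t_NEAR
theorem t_LG : S_LG := Run7.h888.FL.t_LG Run7.h468.FL.t_NEAR
theorem t_SECX : S_SECX :=
  Run7.h834.FL.t_SECX Run7.h468.FL.t_NEAR (Run7.h841.FL.t_SECL t_PRO Run7.h468.FL.t_NEAR)
theorem t_BETA : S_BETA :=
  Run7.h483.FL.t_BETA Run7.h468.FL.t_NEAR t_SECX Run7.h255.FL.t_B2
theorem t_CS : S_CS := Run7.h255.FL.t_CS Run7.h468.FL.t_NEAR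
theorem t_ALL : S_ALL := Run7.h116.FL.t_ALL t_LG t_REF t_KAP
theorem t_DES : S_DES := Run7.h888.FL.t_DES t_LG Run7.h510.FL.t_GL

/-- two 2-cocycles on the (compact, connected) orbit space of a flow on `ℝ⁵` are linearly dependent
modulo coboundaries -/
theorem t_MAIN : S_MAIN := Run7.h116.FL.t_MAIN t_BETA t_CS t_REF t_KAP t_ALL t_DES

end Run7.h404.FL
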