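import Pool.Agent.Run7.h404.FL.Iface
import Pool.Agent.Run7.h255.OQ.AREA

/-!
# Project FL (MP_74810d_gt): the end (helper404)

From `S_MAIN` and the area cocycles of `S² × S²` (helper255) to the frozen statement.
-/

set_option autoImplicit false
set_option linter.unusedVariables false

namespace Run7.h404.FL

open Set Topology Filter Metric
open Run7.h255.OQ (S2 comb comb_cocycle comb_exact al al_swap12 al_swap23 del)

/-- `S² × S²` -/
abbrev QQ : Type := S2 × S2

theorem del_pos : 0 < del := by norm_num [del]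

theorem comb_C2 (s t : ℝ) (q : QQ) : C2 (comb s t) q := by
  refine ⟨ball q (del / 2), ball_mem_nhds q (by have := del_pos; linarith), ?_⟩
  intro y hy z hz w hw v hv
  have hd : ∀ {a b : QQ}, a ∈ ball q (del / 2) → b ∈ ball q (del / 2) → dist a b < del := by
    intro a b ha hb
    calc dist a b ≤ dist a q + dist b q := dist_triangle_right a b q
      _ < del / 2 + del / 2 := add_lt_add (mem_ball.1 ha) (mem_ball.1 hb)
      _ = del := by ring
  exact comb_cocycle s t (hd hy hz) (hd hy hw) (hd hy hv) (hd hz hw) (hd hz hv) (hd hw hv)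

theorem comb_A2 (s t : ℝ) (q : QQ) : A2 (comb s t) q := by
  refine ⟨ball q (del / 2), ball_mem_nhds q (by have := del_pos; linarith), ?_⟩
  intro y hy z hz w hw
  have hd : ∀ {a b : QQ}, a ∈ ball q (del / 2) → b ∈ ball q (del / 2) → dist a b < del := by
    intro a b ha hb
    calc dist a b ≤ dist a q + dist b q := dist_triangle_right a b q
      _ < del / 2 + del / 2 := add_lt_add (mem_ball.1 ha) (mem_ball.1 hb)
      _ = del := by ring
  have f1 : ∀ {p q : S2 × S2}, dist p q < del → dist p.1 q.1 < del := fun {p q} h =>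
    lt_of_le_of_lt (le_max_left _ _) h
  have f2 : ∀ {p q : S2 × S2}, dist p q < del → dist p.2 q.2 < del := fun {p q} h =>
    lt_of_le_of_lt (le_max_right _ _) h
  have h1 := hd hy hz
  have h2 := hd hz hw
  have h3 := hd hy hw
  have a1 := al_swap12 (f1 h1) (f1 h2) (f1 h3)
  have a2 := al_swap12 (f2 h1) (f2 h2) (f2 h3)
  have b1 := al_swap23 (f1 h1) (f1 h2) (f1 h3)
  have b2 := al_swap23 (f2 h1) (f2 h2) (f2 h3)
  unfold comb
  constructor
  · rw [a1, a2]; ring
  · rw [b1, b2]; ring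

/-- there is no flow on `ℝ⁵` with orbit space `S² × S²`, in terms of the projection -/
theorem no_flow (h : S_MAIN) (Φ : ℝ → E5 → E5) (p : E5 → QQ) (hF : Fl Φ p) : False := by
  have : SimplyConnectedSpace QQ := Run7.h255.OQ.sc
  have : PreconnectedSpace QQ := inferInstance
  obtain ⟨s, t, ζ, hst, hζ⟩ := h QQ Φ p hF (comb 1 0) (comb 0 1) (comb_C2 1 0) (comb_A2 1 0)
    (comb_C2 0 1) (comb_A2 0 1)
  choose U hU hζ' using hζ
  obtain ⟨ε, hε, hL⟩ := lebesgue_number_lemma_of_metric (s := (univ : Set QQ))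
    (c := fun q => interior (U q)) isCompact_univ (fun q => isOpen_interior)
    (fun q _ => mem_iUnion.2 ⟨q, mem_interior_iff_mem_nhds.2 (hU q)⟩)
  have key : ∀ x y z : QQ, dist x y < ε → dist y z < ε → dist x z < ε →
      comb s t x y z = Run7.h255.OQ.dd ζ x y z := by
    intro x y z hxy hyz hxz
    obtain ⟨q, hq⟩ := hL x (mem_univ x)
    have h1 := hζ' q x (interior_subset (hq (mem_ball_self hε))) y
      (interior_subset (hq (by rw [mem_ball, dist_comm]; exact hxy))) z
      (interior_subset (hq (by rw [mem_ball, dist_comm]; exact hxz)))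
    have h2 : comb s t x y z = s * comb 1 0 x y z + t * comb 0 1 x y z := by
      unfold comb; ring
    rw [h2]
    exact h1
  obtain ⟨hs, ht⟩ := comb_exact s t ζ ε hε key
  rcases hst with h | h
  · exact h hs
  · exact h ht

/-- the negation of the problem, from `S_MAIN` -/
theorem t_FIN (h : S_MAIN) :
    ¬ (∀ n : ℕ, 1 ≤ n →
      ∀ (Q : Type) [TopologicalSpace Q] [T2Space Q] [SecondCountableTopology Q]
        [ChartedSpace (EuclideanSpace ℝ (Fin n)) Q] [SimplyConnectedSpace Q],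
        ∃ Φ : ℝ → EuclideanSpace ℝ (Fin (n + 1)) → EuclideanSpace ℝ (Fin (n + 1)),
          ContDiff ℝ (⊤ : ℕ∞)
              (fun p : ℝ × EuclideanSpace ℝ (Fin (n + 1)) => Φ p.1 p.2) ∧
          (∀ x, Φ 0 x = x) ∧
          (∀ (s t : ℝ) (x : EuclideanSpace ℝ (Fin (n + 1))), Φ (s + t) x = Φ s (Φ t x)) ∧
          Nonempty
            (Quot (fun x y : EuclideanSpace ℝ (Fin (n + 1)) => ∃ t : ℝ, Φ t x = y) ≃ₜ Q)) := by
  intro H
  have hsc : SimplyConnectedSpace QQ := Run7.h255.OQ.sc
  let hch : ChartedSpace (EuclideanSpace ℝ (Fin 4)) QQ := Run7.h255.OQ.charted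
  obtain ⟨Φ, hΦ, h0, hadd, ⟨e⟩⟩ := H 4 (by norm_num) QQ
  have hc : Continuous fun z : ℝ × E5 => Φ z.1 z.2 := hΦ.continuous
  let r : E5 → E5 → Prop := fun x y => ∃ t : ℝ, Φ t x = y
  have hr : Equivalence r := by
    refine ⟨fun x => ⟨0, h0 x⟩, ?_, ?_⟩
    · rintro x y ⟨t, rfl⟩
      exact ⟨-t, by rw [← hadd]; simp [h0]⟩
    · rintro x y z ⟨t, rfl⟩ ⟨s, rfl⟩
      exact ⟨s + t, hadd s t x⟩
  let p : E5 → QQ := fun x => e (Quot.mk r x)
  have hmk : ∀ x y, (Quot.mk r x = Quot.mk r y) ↔ r x y := by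
    intro x y
    rw [Quot.eq]
    exact hr.eqvGen_iff
  have hcm : Continuous (Quot.mk r) := continuous_quot_mk
  have hom : IsOpenMap (Quot.mk r) := by
    intro U hU
    rw [← isQuotientMap_quot_mk.isOpen_preimage]
    have : Quot.mk r ⁻¹' (Quot.mk r '' U) = ⋃ t : ℝ, (Φ t) ⁻¹' U := by
      ext y
      simp only [mem_preimage, mem_image, mem_iUnion]
      constructor
      · rintro ⟨x, hx, hxy⟩
        obtain ⟨t, ht⟩ := (hmk x y).1 hxy
        refine ⟨-t, ?_⟩
        rw [← ht, ← hadd]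
        simpa [h0] using hx
      · rintro ⟨t, ht⟩
        exact ⟨Φ t y, ht, (hmk _ _).2 (hr.symm ⟨t, rfl⟩)⟩
    rw [this]
    exact isOpen_iUnion fun t => hU.preimage (hc.comp (Continuous.prodMk_right t))
  refine no_flow h Φ p ⟨hc, h0, hadd, e.continuous.comp hcm, e.isOpenMap.comp hom, ?_, ?_⟩
  · exact e.surjective.comp Quot.mk_surjective
  · intro x y
    change e (Quot.mk r x) = e (Quot.mk r y) ↔ _
    rw [e.injective.eq_iff, hmk]

end Run7.h404.FL
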